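import Mathlib

set_option autoImplicit false

namespace Pool.Agent.Results.MP_dbf4ef_co.Eta

open Finset Classical

noncomputable section

variable {V : Type} (G : SimpleGraph V)

/-- A finite set `A` of vertices stands for the subgraph of `G` induced on `A`.
`sph G A x` is the unit sphere of `x` in that subgraph. -/
def sph (A : Finset V) (x : V) : Finset V := A.filter (fun y => G.Adj x y)

/-- the nonempty complete subgraphs of the graph induced on `A` -/
def faces (A : Finset V) : Finset (Finset V) :=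
  A.powerset.filter (fun s => s.Nonempty ∧ G.IsClique (s : Set V))

/-- Euler characteristic of the graph induced on `A` -/
def chi (A : Finset V) : ℤ := ∑ s ∈ faces G A, (-1) ^ (s.card - 1)

/-- strict containment graph on finite sets; the barycentric refinement of the graph induced on `A`
is its subgraph induced on `faces G A` -/
def bary (V : Type) : SimpleGraph (Finset V) where
  Adj s t := s ⊂ t ∨ t ⊂ s
  symm := ⟨fun _ _ h => h.symm⟩
  loopless := ⟨fun s h => by rcases h with h | h <;> exact h.ne rfl⟩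

def eta (A : Finset V) : ℤ := ∑ s ∈ faces G A, chi (bary V) (sph (bary V) (faces G A) s)

inductive Collapsible : Finset V → Prop
  | point (x : V) : Collapsible {x}
  | step (A : Finset V) (x : V) : x ∈ A → Collapsible (A.erase x) → Collapsible (sph G A x) →
      Collapsible A

/-- `IsSphere G k A`: `A` is a `(k-1)`-sphere -/
def IsSphere : ℕ → Finset V → Prop
  | 0, A => A = ∅
  | k + 1, A => (∀ x ∈ A, IsSphere k (sph G A x)) ∧ ∃ x ∈ A, Collapsible G (A.erase x)

/-- `IsDGraph G k A`: `A` is a `(k-1)`-graph -/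
def IsDGraph : ℕ → Finset V → Prop
  | 0, A => A = ∅
  | k + 1, A => ∀ x ∈ A, IsSphere G k (sph G A x)

/-- `IsVariety G k A`: `A` is a `(k-1)`-variety -/
def IsVariety : ℕ → Finset V → Prop
  | 0, A => A = ∅
  | k + 1, A => ∃ S : Finset V, S ⊆ A ∧ (∀ x ∈ S, ∀ y ∈ S, ¬ G.Adj x y) ∧
      (∀ x ∈ A, x ∉ S → IsDGraph G k (sph G A x)) ∧ ∀ x ∈ S, IsVariety k (sph G A x)

def cq (A : Finset V) : Finset (Finset V) := A.powerset.filter (fun s => G.IsClique (s : Set V))

def E (A : Finset V) : ℚ := ∑ s ∈ cq G A, (-1) ^ s.card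

def lk (A s : Finset V) : Finset V := A.filter (fun y => ∀ x ∈ s, G.Adj x y)

variable {G}

lemma mem_cq {A s : Finset V} : s ∈ cq G A ↔ s ⊆ A ∧ G.IsClique (s : Set V) := by simp [cq]
lemma mem_sph {A : Finset V} {x y : V} : y ∈ sph G A x ↔ y ∈ A ∧ G.Adj x y := by simp [sph]
lemma mem_lk {A s : Finset V} {y : V} : y ∈ lk G A s ↔ y ∈ A ∧ ∀ x ∈ s, G.Adj x y := by simp [lk]
lemma mem_faces {A s : Finset V} : s ∈ faces G A ↔ s ∈ cq G A ∧ s.Nonempty := by
  simp [faces, cq]; tauto

lemma empty_cq (A : Finset V) : ∅ ∈ cq G A := mem_cq.2 ⟨empty_subset _, by simp⟩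

lemma faces_eq (A : Finset V) : faces G A = (cq G A).erase ∅ := by
  ext s; rw [mem_faces, mem_erase, nonempty_iff_ne_empty]; tauto

lemma chi_eq (A : Finset V) : (chi G A : ℚ) = 1 - E G A := by
  rw [E, ← add_sum_erase _ _ (empty_cq A), ← faces_eq, chi]
  push_cast
  simp only [card_empty, pow_zero, sub_add_cancel_left, ← sum_neg_distrib]
  refine sum_congr rfl fun s hs => ?_
  obtain ⟨k, hk⟩ : ∃ k, s.card = k + 1 := ⟨s.card - 1, by have := (mem_faces.1 hs).2.card_pos; omega⟩
  rw [hk]; simp [pow_succ]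

lemma sum_with (A : Finset V) (x : V) (hx : x ∈ A) (g : Finset V → ℚ) :
    ∑ s ∈ (cq G A).filter (fun s => x ∈ s), g s = ∑ t ∈ cq G (sph G A x), g (insert x t) := by
  symm
  refine sum_nbij' (fun t => insert x t) (fun s => s.erase x) ?_ ?_ ?_ ?_ (fun _ _ => rfl)
  · intro t ht
    have ht := mem_cq.1 ht
    refine mem_filter.2 ⟨mem_cq.2 ⟨insert_subset hx fun y hy => (mem_sph.1 (ht.1 hy)).1, ?_⟩,
      mem_insert_self _ _⟩
    rw [coe_insert]
    exact ht.2.insert fun y hy _ => (mem_sph.1 (ht.1 hy)).2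
  · intro s hs
    have hs := mem_filter.1 hs
    have h1 := mem_cq.1 hs.1
    refine mem_cq.2 ⟨fun y hy => mem_sph.2 ⟨h1.1 (mem_of_mem_erase hy), ?_⟩,
      h1.2.subset (by simp)⟩
    exact h1.2 hs.2 (mem_of_mem_erase hy) (ne_of_mem_erase hy).symm
  · intro t ht
    exact erase_insert fun h => G.irrefl (mem_sph.1 ((mem_cq.1 ht).1 h)).2
  · intro s hs
    exact insert_erase (mem_filter.1 hs).2

lemma split (A : Finset V) (x : V) (hx : x ∈ A) (g : Finset V → ℚ) :
    ∑ s ∈ cq G A, g s = ∑ s ∈ cq G (A.erase x), g s + ∑ t ∈ cq G (sph G A x), g (insert x t) := by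
  rw [← sum_with A x hx, ← sum_filter_not_add_sum_filter (cq G A) (fun s => x ∈ s)]
  congr 2
  ext s
  simp only [mem_filter, mem_cq, subset_erase]; tauto

lemma card_ins {A t : Finset V} {x : V} (ht : t ∈ cq G (sph G A x)) :
    (insert x t).card = t.card + 1 :=
  card_insert_of_notMem fun h => G.irrefl (mem_sph.1 ((mem_cq.1 ht).1 h)).2

lemma E_rec (A : Finset V) (x : V) (hx : x ∈ A) : E G A = E G (A.erase x) - E G (sph G A x) := by
  rw [E, split A x hx, E, E, sub_eq_add_neg, ← sum_neg_distrib]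
  congr 1
  exact sum_congr rfl fun t ht => by rw [card_ins ht, pow_succ]; ring

lemma cq_empty : cq G ∅ = {∅} := by
  ext s; simp only [mem_cq, subset_empty, mem_singleton]
  exact ⟨fun h => h.1, fun h => ⟨h, by simp [h]⟩⟩

lemma E_empty : E G ∅ = 1 := by simp [E, cq_empty]

lemma sph_ssub {A : Finset V} {x : V} (hx : x ∈ A) : sph G A x ⊂ A :=
  ⟨filter_subset _ _, fun h => G.irrefl (mem_sph.1 (h hx)).2⟩

lemma E_coll {A : Finset V} (h : Collapsible G A) : E G A = 0 := by
  induction h with
  | point x =>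
    have : sph G {x} x = ∅ := by
      ext y; simp only [mem_sph, mem_singleton, notMem_empty, iff_false, not_and]
      rintro rfl; exact G.irrefl
    rw [E_rec _ x (mem_singleton_self x), this, erase_singleton, sub_self]
  | step A x hx _ _ h1 h2 => rw [E_rec A x hx, h1, h2, sub_self]

lemma E_sphere (k : ℕ) : ∀ A : Finset V, IsSphere G k A → E G A = (-1) ^ k := by
  induction k with
  | zero => intro A h; rw [show A = ∅ from h, E_empty, pow_zero]
  | succ k ih =>
    rintro A ⟨h1, x, hx, h2⟩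
    rw [E_rec A x hx, E_coll h2, ih _ (h1 x hx), pow_succ]; ring

lemma lk_empty (A : Finset V) : lk G A ∅ = A := by ext y; simp [mem_lk]

lemma lk_insert (A s : Finset V) (x : V) : lk G A (insert x s) = lk G (sph G A x) s := by
  ext y; simp only [mem_lk, mem_sph, forall_mem_insert]; tauto

lemma erase_cq {A s : Finset V} {x : V} (hs : s ∈ cq G A) (hx : x ∈ s) :
    s.erase x ∈ cq G (sph G A x) := by
  have h1 := mem_cq.1 hs
  refine mem_cq.2 ⟨fun y hy => mem_sph.2 ⟨h1.1 (mem_of_mem_erase hy), ?_⟩,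
      h1.2.subset (by simp)⟩
  exact h1.2 hx (mem_of_mem_erase hy) (ne_of_mem_erase hy).symm

lemma lk_sphere (k : ℕ) : ∀ A s : Finset V, IsSphere G k A → s ∈ cq G A →
    E G (lk G A s) = (-1) ^ (k + s.card) := by
  induction k with
  | zero =>
    intro A s h hs
    rw [show A = ∅ from h, cq_empty, mem_singleton] at hs
    rw [show A = ∅ from h, hs, lk_empty, E_empty]; simp
  | succ k ih =>
    intro A s h hs
    rcases s.eq_empty_or_nonempty with rfl | ⟨x, hx⟩
    · rw [lk_empty, E_sphere _ _ h]; simp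
    · have h2 := erase_cq hs hx
      rw [← insert_erase hx, lk_insert, ih _ _ (h.1 x ((mem_cq.1 hs).1 hx)) h2, card_ins h2]
      ring

lemma lk_graph (k : ℕ) (A s : Finset V) (h : IsDGraph G k A) (hs : s ∈ faces G A) :
    E G (lk G A s) = (-1) ^ (k + s.card) := by
  obtain ⟨hs, x, hx⟩ := mem_faces.1 hs
  cases k with
  | zero =>
    have := (mem_cq.1 hs).1 hx
    rw [show A = ∅ from h] at this; simp at this
  | succ k =>
    have h2 := erase_cq hs hx
    rw [← insert_erase hx, lk_insert, lk_sphere _ _ _ (h x ((mem_cq.1 hs).1 hx)) h2, card_ins h2]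
    ring

lemma GS (t : ℚ) (A : Finset V) :
    ∑ s ∈ cq G A, t ^ s.card * E G (lk G A s) = ∑ s ∈ cq G A, (t - 1) ^ s.card := by
  induction A using Finset.strongInduction with
  | H A ih =>
    rcases A.eq_empty_or_nonempty with rfl | ⟨x, hx⟩
    · simp [cq_empty, lk_empty, E_empty]
    rw [split A x hx, split A x hx, ← ih _ (erase_ssubset hx)]
    have e1 : ∑ s ∈ cq G (sph G A x), (t - 1) ^ (insert x s).card
        = (t - 1) * ∑ s ∈ cq G (sph G A x), t ^ s.card * E G (lk G (sph G A x) s) := by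
      rw [ih _ (sph_ssub hx), mul_sum]
      exact sum_congr rfl fun s hs => by rw [card_ins hs, pow_succ]; ring
    have e2 : ∑ s ∈ cq G (sph G A x), t ^ (insert x s).card * E G (lk G A (insert x s))
        = t * ∑ s ∈ cq G (sph G A x), t ^ s.card * E G (lk G (sph G A x) s) := by
      rw [mul_sum]
      exact sum_congr rfl fun s hs => by rw [card_ins hs, pow_succ, lk_insert]; ring
    have e3 : cq G (sph G A x) = (cq G (A.erase x)).filter (fun s => ∀ y ∈ s, G.Adj y x) := by
      ext s
      simp only [mem_filter, mem_cq, subset_erase]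
      constructor
      · rintro ⟨h1, h2⟩
        exact ⟨⟨⟨fun y hy => (mem_sph.1 (h1 hy)).1, fun h => G.irrefl (mem_sph.1 (h1 h)).2⟩, h2⟩,
          fun y hy => (mem_sph.1 (h1 hy)).2.symm⟩
      · rintro ⟨⟨⟨h1, _⟩, h2⟩, h3⟩
        exact ⟨fun y hy => mem_sph.2 ⟨h1 hy, (h3 y hy).symm⟩, h2⟩
    have e4 : ∑ s ∈ cq G (A.erase x), t ^ s.card * E G (lk G A s)
        = ∑ s ∈ cq G (A.erase x), t ^ s.card * E G (lk G (A.erase x) s)
          - ∑ s ∈ cq G (sph G A x), t ^ s.card * E G (lk G (sph G A x) s) := by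
      rw [e3, sum_filter, ← sum_sub_distrib]
      refine sum_congr rfl fun s _ => ?_
      have a1 : lk G (A.erase x) s = (lk G A s).erase x := by
        ext y; simp only [mem_lk, mem_erase]; tauto
      split_ifs with h
      · have a2 : lk G (sph G A x) s = sph G (lk G A s) x := by
          ext y; simp only [mem_lk, mem_sph]; tauto
        rw [E_rec (lk G A s) x (mem_lk.2 ⟨hx, h⟩), a1, a2]; ring
      · rw [a1, erase_eq_of_notMem (fun h' => h (mem_lk.1 h').2), sub_zero]
    rw [e1, e2, e4]; ring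

lemma join (B : Finset V) : ∀ C : Finset V, (∀ b ∈ B, ∀ c ∈ C, G.Adj b c) →
    E G (B ∪ C) = E G B * E G C := by
  induction B using Finset.strongInduction with
  | H B ih =>
    intro C h
    rcases B.eq_empty_or_nonempty with rfl | ⟨x, hx⟩
    · simp [E_empty]
    have a1 : (B ∪ C).erase x = B.erase x ∪ C := by
      rw [erase_union_distrib, erase_eq_of_notMem (s := C) (fun hc => G.irrefl (h x hx x hc))]
    have a2 : sph G (B ∪ C) x = sph G B x ∪ C := by
      ext y; simp only [mem_sph, mem_union]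
      have := h x hx y
      tauto
    rw [E_rec _ x (mem_union_left _ hx), a1, a2, E_rec B x hx,
      ih _ (erase_ssubset hx) C (fun b hb => h b (mem_of_mem_erase hb)),
      ih _ (sph_ssub hx) C (fun b hb => h b (mem_sph.1 hb).1)]
    ring

lemma rank (f : V → ℤ) (hf : ∀ x y, G.Adj x y → f x ≠ f y) (Q : Finset V) :
    E G Q = 1 - ∑ r ∈ Q, E G (Q.filter (fun y => G.Adj r y ∧ f y < f r)) := by
  induction Q using Finset.induction_on_max_value f with
  | empty => simp [E_empty]
  | insert a s ha hle ih =>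
    rw [E_rec _ a (mem_insert_self _ _), erase_insert ha, ih, sum_insert ha]
    have a1 : sph G (insert a s) a = (insert a s).filter (fun y => G.Adj a y ∧ f y < f a) := by
      ext y
      simp only [mem_sph, mem_filter, mem_insert]
      constructor
      · rintro ⟨h1, h2⟩
        refine ⟨h1, h2, ?_⟩
        rcases h1 with rfl | h1
        · exact absurd h2 G.irrefl
        · exact lt_of_le_of_ne (hle y h1) (hf _ _ h2).symm
      · tauto
    have a2 : ∑ r ∈ s, E G ((insert a s).filter (fun y => G.Adj r y ∧ f y < f r))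
        = ∑ r ∈ s, E G (s.filter (fun y => G.Adj r y ∧ f y < f r)) := by
      refine sum_congr rfl fun r hr => ?_
      rw [filter_insert, if_neg (fun h => absurd (hle r hr) (not_le.2 h.2))]
    rw [a1, a2]; ring

lemma bary_card (x y : Finset V) (h : (bary V).Adj x y) : (x.card : ℤ) ≠ y.card := by
  rcases h with h | h <;> have := card_lt_card h <;> omega

lemma low (s : Finset V) : s.Nonempty →
    E (bary V) (s.powerset.filter (fun r => r.Nonempty ∧ r ⊂ s)) = (-1) ^ (s.card + 1) := by
  induction s using Finset.strongInduction with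
  | H s ih =>
    intro hs
    rw [rank (fun r => (r.card : ℤ)) bary_card]
    have a1 : ∑ r ∈ s.powerset.filter (fun r => r.Nonempty ∧ r ⊂ s),
        E (bary V) ((s.powerset.filter (fun r => r.Nonempty ∧ r ⊂ s)).filter
          (fun y => (bary V).Adj r y ∧ (y.card : ℤ) < r.card))
        = ∑ r ∈ s.powerset.filter (fun r => r.Nonempty ∧ r ⊂ s), (-1 : ℚ) ^ (r.card + 1) := by
      refine sum_congr rfl fun r hr => ?_
      have hr := (mem_filter.1 hr).2
      rw [← ih r hr.2 hr.1]
      congr 1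
      ext y
      simp only [mem_filter, mem_powerset, bary]
      constructor
      · rintro ⟨⟨_, h1, _⟩, h2 | h2, h3⟩
        · have := card_lt_card h2; omega
        · exact ⟨h2.1, h1, h2⟩
      · rintro ⟨h1, h2, h3⟩
        have := card_lt_card h3
        exact ⟨⟨h1.trans hr.2.1, h2, h3.trans hr.2⟩, Or.inr h3, by omega⟩
    rw [a1]
    have a2 : s.powerset.filter (fun r => r.Nonempty ∧ r ⊂ s) = (s.powerset.erase s).erase ∅ := by
      ext r
      simp only [mem_filter, mem_powerset, mem_erase, nonempty_iff_ne_empty,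
        ssubset_iff_subset_ne]
      tauto
    have a3 : ∑ r ∈ s.powerset, (-1 : ℚ) ^ r.card = 0 := by
      exact_mod_cast sum_powerset_neg_one_pow_card_of_nonempty hs
    rw [← add_sum_erase _ _ (mem_powerset_self s),
      ← add_sum_erase _ _ (mem_erase.2 ⟨hs.ne_empty.symm, empty_mem_powerset s⟩)] at a3
    rw [a2]
    simp only [pow_succ, ← sum_mul, card_empty, pow_zero] at a3 ⊢
    linarith

lemma high (A : Finset V) (m : ℕ) : ∀ s ∈ faces G A, A.card - s.card = m →
    E (bary V) ((faces G A).filter (fun r => s ⊂ r)) = E G (lk G A s) := by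
  induction m using Nat.strong_induction_on with
  | _ m ih =>
    intro s hs hm
    rw [rank (fun r => -(r.card : ℤ)) (fun x y h e => bary_card x y h (neg_injective e))]
    have a1 : ∑ r ∈ (faces G A).filter (fun r => s ⊂ r),
        E (bary V) (((faces G A).filter (fun r => s ⊂ r)).filter
          (fun y => (bary V).Adj r y ∧ -(y.card : ℤ) < -(r.card : ℤ)))
        = ∑ r ∈ (faces G A).filter (fun r => s ⊂ r), E G (lk G A r) := by
      refine sum_congr rfl fun r hr => ?_
      have hr := mem_filter.1 hr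
      have c1 := card_lt_card hr.2
      have c2 := card_le_card (mem_cq.1 (mem_faces.1 hr.1).1).1
      rw [← ih (A.card - r.card) (by omega) r hr.1 rfl]
      congr 1
      ext y
      simp only [mem_filter, bary]
      constructor
      · rintro ⟨⟨h1, _⟩, h2 | h2, h3⟩
        · exact ⟨h1, h2⟩
        · have := card_lt_card h2; omega
      · rintro ⟨h1, h2⟩
        have := card_lt_card h2
        exact ⟨⟨h1, hr.2.trans h2⟩, Or.inl h2, by omega⟩
    rw [a1]
    have g := GS (G := G) 1 (lk G A s)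
    rw [← add_sum_erase _ _ (empty_cq _), ← add_sum_erase _ _ (empty_cq _), ← faces_eq,
      sum_eq_zero (f := fun t : Finset V => ((1 : ℚ) - 1) ^ t.card) (fun t ht => by
        rw [sub_self, zero_pow (mem_faces.1 ht).2.card_pos.ne'])] at g
    simp only [one_pow, one_mul, lk_empty, card_empty, pow_zero, add_zero] at g
    have hs' := mem_cq.1 (mem_faces.1 hs).1
    have a2 : ∑ r ∈ (faces G A).filter (fun r => s ⊂ r), E G (lk G A r)
        = ∑ t ∈ faces G (lk G A s), E G (lk G (lk G A s) t) := by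
      refine sum_nbij' (fun r => r \ s) (fun t => s ∪ t) ?_ ?_ ?_ ?_ ?_
      · intro r hr
        have hr := mem_filter.1 hr
        have h1 := mem_cq.1 (mem_faces.1 hr.1).1
        refine mem_faces.2 ⟨mem_cq.2 ⟨fun y hy => ?_, h1.2.subset (by simp)⟩,
          sdiff_nonempty.2 hr.2.2⟩
        have hy := mem_sdiff.1 hy
        exact mem_lk.2 ⟨h1.1 hy.1, fun x hx => h1.2 (hr.2.1 hx) hy.1 (fun e => hy.2 (e ▸ hx))⟩
      · intro t ht
        have ht := mem_faces.1 ht
        have h1 := mem_cq.1 ht.1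
        refine mem_filter.2 ⟨mem_faces.2 ⟨mem_cq.2 ⟨union_subset hs'.1
          fun y hy => (mem_lk.1 (h1.1 hy)).1, ?_⟩, ht.2.mono subset_union_right⟩,
          subset_union_left, fun h => ?_⟩
        · intro a ha b hb hab
          simp only [coe_union, Set.mem_union, mem_coe] at ha hb
          rcases ha with ha | ha <;> rcases hb with hb | hb
          · exact hs'.2 ha hb hab
          · exact (mem_lk.1 (h1.1 hb)).2 a ha
          · exact ((mem_lk.1 (h1.1 ha)).2 b hb).symm
          · exact h1.2 ha hb hab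
        · obtain ⟨y, hy⟩ := ht.2
          exact G.irrefl ((mem_lk.1 (h1.1 hy)).2 y (h (mem_union_right _ hy)))
      · intro r hr
        exact union_sdiff_of_subset (mem_filter.1 hr).2.1
      · intro t ht
        have h1 := mem_cq.1 (mem_faces.1 ht).1
        exact union_sdiff_cancel_left (disjoint_left.2 fun y hy hy' =>
          G.irrefl ((mem_lk.1 (h1.1 hy')).2 y hy))
      · intro r hr
        congr 1
        ext y
        have := (mem_filter.1 hr).2.1
        simp only [mem_lk, mem_sdiff]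
        constructor
        · rintro ⟨h1, h2⟩
          exact ⟨⟨h1, fun x hx => h2 x (this hx)⟩, fun x hx => h2 x hx.1⟩
        · rintro ⟨⟨h1, h2⟩, h3⟩
          exact ⟨h1, fun x hx => by
            by_cases e : x ∈ s
            · exact h2 x e
            · exact h3 x ⟨hx, e⟩⟩
    rw [a2]; linarith

lemma chi_bary (A s : Finset V) (hs : s ∈ faces G A) :
    (chi (bary V) (sph (bary V) (faces G A) s) : ℚ) = 1 - (-1) ^ (s.card + 1) * E G (lk G A s) := by
  rw [chi_eq, ← low s (mem_faces.1 hs).2, ← high A _ s hs rfl, ← join]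
  · congr 2
    ext r
    have hs' := mem_cq.1 (mem_faces.1 hs).1
    simp only [mem_sph, mem_union, mem_filter, mem_powerset, bary]
    constructor
    · rintro ⟨h1, h2 | h2⟩
      · exact Or.inr ⟨h1, h2⟩
      · exact Or.inl ⟨h2.1, (mem_faces.1 h1).2, h2⟩
    · rintro (⟨h1, h2, h3⟩ | ⟨h1, h2⟩)
      · exact ⟨mem_faces.2 ⟨mem_cq.2 ⟨h1.trans hs'.1, hs'.2.subset (coe_subset.2 h1)⟩, h2⟩, Or.inr h3⟩
      · exact ⟨h1, Or.inl h2⟩
  · intro b hb c hc
    exact Or.inl ((mem_filter.1 hb).2.2.trans (mem_filter.1 hc).2)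

lemma DS (k : ℕ) (A : Finset V) (h : IsDGraph G k A) :
    1 - E G A = -(∑ s ∈ faces G A, (-1 / 2 : ℚ) ^ s.card) * (1 - (-1) ^ k) := by
  have g := GS (G := G) (1 / 2) A
  rw [← add_sum_erase _ _ (empty_cq _), ← add_sum_erase _ _ (empty_cq _), ← faces_eq] at g
  have a : ∑ s ∈ faces G A, (1 / 2 : ℚ) ^ s.card * E G (lk G A s)
      = (-1) ^ k * ∑ s ∈ faces G A, (-1 / 2 : ℚ) ^ s.card := by
    rw [mul_sum]
    refine sum_congr rfl fun s hs => ?_
    rw [lk_graph k A s h hs, show (-1 / 2 : ℚ) = (-1) * (1 / 2) by norm_num, mul_pow]; ring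
  rw [a, show (1 / 2 - 1 : ℚ) = -1 / 2 by norm_num] at g
  simp only [lk_empty, card_empty, pow_zero, one_mul] at g
  linarith

lemma links (k : ℕ) (A : Finset V) (h : IsVariety G (k + 1) A) :
    ∀ x ∈ A, IsDGraph G k (sph G A x) := by
  obtain ⟨S, h1, h2, h3, h4⟩ := h
  intro x hx
  by_cases hS : x ∈ S
  · cases k with
    | zero => exact h4 x hS
    | succ k =>
      intro y hy
      have hy := mem_sph.1 hy
      have := h3 y hy.1 (fun h => h2 x hS y h hy.2) x (mem_sph.2 ⟨hx, hy.2.symm⟩)
      convert this using 1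
      ext z; simp only [mem_sph]; tauto
  · exact h3 x hx hS

lemma val (k : ℕ) (A : Finset V) (h : IsVariety G (k + 1) A) (x : V) (hx : x ∈ A)
    (t : Finset V) (ht : t ∈ cq G (sph G A x)) :
    insert x t ∈ faces G A ∧ (chi (bary V) (sph (bary V) (faces G A) (insert x t)) : ℚ) =
      (if t = ∅ then -(∑ s ∈ faces G (sph G A x), (-1 / 2 : ℚ) ^ s.card) else 1) * (1 - (-1) ^ k) := by
  have h1 := mem_cq.1 ht
  have hm : insert x t ∈ faces G A := by
    refine mem_faces.2 ⟨mem_cq.2 ⟨insert_subset hx fun y hy => (mem_sph.1 (h1.1 hy)).1, ?_⟩,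
      insert_nonempty _ _⟩
    rw [coe_insert]
    exact h1.2.insert fun y hy _ => (mem_sph.1 (h1.1 hy)).2
  refine ⟨hm, ?_⟩
  rw [chi_bary A _ hm, lk_insert, card_ins ht]
  split_ifs with e
  · subst e
    rw [lk_empty, ← DS k _ (links k A h x hx)]; simp
  · rw [lk_graph k _ t (links k A h x hx) (mem_faces.2 ⟨ht, nonempty_iff_ne_empty.2 e⟩)]
    have : ((-1 : ℚ)) ^ t.card * (-1) ^ t.card = 1 := by rw [← mul_pow]; simp
    simp only [pow_add]
    linear_combination (-(-1 : ℚ) ^ k) * this

lemma posterm (j : ℕ) (hj : 0 < j) : (0 : ℚ) < 1 / (j + 1) - (-1 / 2) ^ j := by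
  rcases Nat.even_or_odd j with he | ho
  · have h2 : 2 ≤ j := by obtain ⟨a, rfl⟩ := he; omega
    rw [neg_div, he.neg_pow, one_div_pow, sub_pos]
    apply one_div_lt_one_div_of_lt (by positivity)
    have : ∀ i : ℕ, i + 2 + 1 < 2 ^ (i + 2) := by
      intro i; induction i with
      | zero => norm_num
      | succ i ih => rw [show i + 1 + 2 = (i + 2) + 1 by ring, pow_succ]; omega
    obtain ⟨i, rfl⟩ : ∃ i, j = i + 2 := ⟨j - 2, by omega⟩
    exact_mod_cast this i
  · rw [neg_div, ho.neg_pow]; have : (0 : ℚ) < (1 / 2) ^ j := by positivity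
    have : (0 : ℚ) < 1 / (j + 1) := by positivity
    linarith

theorem result (V : Type) (G : SimpleGraph V) (A : Finset V) (d : ℕ) (h : IsVariety G (d + 1) A) :
    eta G A = 0 ↔ ∀ s ∈ faces G A, chi (bary V) (sph (bary V) (faces G A) s) = 0 := by
  refine ⟨fun h0 s hs => ?_, fun h0 => sum_eq_zero h0⟩
  obtain ⟨hs1, x, hx⟩ := mem_faces.1 hs
  have hxA := (mem_cq.1 hs1).1 hx
  have hv := (val d A h x hxA _ (erase_cq hs1 hx)).2
  rw [insert_erase hx] at hv
  rcases Nat.even_or_odd d with he | ho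
  · rw [he.neg_one_pow, sub_self, mul_zero] at hv
    exact_mod_cast hv
  set c : Finset V → ℚ := fun s => (chi (bary V) (sph (bary V) (faces G A) s) : ℚ) with hc
  have e1 : (eta G A : ℚ) = ∑ x ∈ A, ∑ s ∈ (cq G A).filter (fun s => x ∈ s), c s / s.card := by
    rw [sum_comm' (t' := faces G A) (s' := fun s => s)]
    · rw [eta]; push_cast
      refine sum_congr rfl fun s hs => ?_
      have : (s.card : ℚ) ≠ 0 := by exact_mod_cast (mem_faces.1 hs).2.card_pos.ne'
      rw [sum_const, nsmul_eq_mul]; field_simp; rfl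
    · intro x s
      simp only [mem_filter, mem_faces]
      constructor
      · rintro ⟨_, h1, h2⟩; exact ⟨h2, h1, x, h2⟩
      · rintro ⟨h1, h2, _⟩; exact ⟨(mem_cq.1 h2).1 h1, h2, h1⟩
  have e2 : ∀ x ∈ A, ∑ s ∈ (cq G A).filter (fun s => x ∈ s), c s / s.card
      = ∑ t ∈ faces G (sph G A x), 2 * (1 / (t.card + 1) - (-1 / 2 : ℚ) ^ t.card) := by
    intro x hx
    rw [sum_with A x hx, ← add_sum_erase _ _ (empty_cq _), ← faces_eq]
    have b1 := (val d A h x hx ∅ (empty_cq _)).2
    have b2 : ∑ t ∈ faces G (sph G A x), c (insert x t) / (insert x t).card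
        = ∑ t ∈ faces G (sph G A x), 2 * (1 / (t.card + 1 : ℚ)) := by
      refine sum_congr rfl fun t ht => ?_
      have ht := mem_faces.1 ht
      have b := (val d A h x hx t ht.1).2
      rw [if_neg ht.2.ne_empty, ho.neg_one_pow] at b
      simp only [hc]
      rw [b, card_ins ht.1]; push_cast; ring
    rw [if_pos rfl, ho.neg_one_pow] at b1
    rw [b2]
    simp only [hc]
    rw [b1]
    simp only [mul_sub, sum_sub_distrib, ← mul_sum]
    simp; ring
  rw [sum_congr rfl e2, h0] at e1
  have nn : ∀ x ∈ A, ∀ t ∈ faces G (sph G A x),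
      (0 : ℚ) < 2 * (1 / (t.card + 1) - (-1 / 2 : ℚ) ^ t.card) := fun x _ t ht =>
    mul_pos two_pos (posterm _ (mem_faces.1 ht).2.card_pos)
  have e3 := (sum_eq_zero_iff_of_nonneg (fun x hx => sum_nonneg fun t ht => (nn x hx t ht).le)).1
    (by exact_mod_cast e1.symm) x hxA
  have e4 : faces G (sph G A x) = ∅ := by
    by_contra hne
    exact absurd e3 (sum_pos (nn x hxA) (nonempty_iff_ne_empty.2 hne)).ne'
  have e5 : s.erase x = ∅ := by
    by_contra hne
    have : s.erase x ∈ faces G (sph G A x) :=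
      mem_faces.2 ⟨erase_cq hs1 hx, nonempty_iff_ne_empty.2 hne⟩
    rw [e4] at this; simp at this
  rw [if_pos e5, e4] at hv
  simp only [sum_empty, neg_zero, zero_mul] at hv
  exact_mod_cast hv

end

end Pool.Agent.Results.MP_dbf4ef_co.Eta
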